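import Pool.Agent.Helper79.GT.St1

/-!
# Module BRM of project GT (MP_c2d095_lc)

Positional superko: the game with situations is the game with boards.
-/

set_option autoImplicit false

namespace Pool.Agent.Helper41.GT

open Pool.Agent.Helper79.GT Pool.Agent.Helper79.GS Pool.Agent.Helper19.SK

private lemma mw_iff {P : Type} [Finite P] (A : Arena P) (H : Set P) (ps c : Bool) (b : P) :
    MW A H ps c b ↔ (ps = true ∧ ahead A c b) ∨ (ps = false ∧ ¬ MW A H true (!c) b) ∨
      ∃ b', A.mv c b b' ∧ b' ∉ H ∧ ¬ MW A (insert b' H) false (!c) b' := by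
  rw [MW]
  simp only [exists_prop]

private lemma mws_iff {P : Type} [Finite P] (A : Arena P) (sk : Bool) (H : Set (Bool × P)) (ps c : Bool) (b : P) :
    MWs A sk H ps c b ↔ (ps = true ∧ ahead A c b) ∨ (ps = false ∧ ¬ MWs A sk (insert (!c, b) H) true (!c) b) ∨
      ∃ b', A.mv c b b' ∧ okk sk c b' H ∧ ¬ MWs A sk (insert (!c, b') H) false (!c) b' := by
  rw [MWs]
  simp only [exists_prop]

private lemma boards_insert {P : Type} (H : Set (Bool × P)) (s : Bool) (b : P) :
    {x | ∃ t, (t, x) ∈ insert (s, b) H} = insert b {x | ∃ t, (t, x) ∈ H} := by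
  ext x
  simp only [Set.mem_ofPred_eq, Set.mem_insert_iff, Prod.mk.injEq]
  constructor
  · rintro ⟨t, h | h⟩
    · exact Or.inl h.2
    · exact Or.inr ⟨t, h⟩
  · rintro (h | ⟨t, h⟩)
    · exact ⟨s, Or.inl ⟨rfl, h⟩⟩
    · exact ⟨t, Or.inr h⟩

theorem hBRM : StBRM := by
  intro P _ A H ps c b h
  suffices key : ∀ n : ℕ, ∀ (H : Set (Bool × P)) (ps c : Bool) (b : P),
      2 * (Hᶜ).ncard + (if ps = true then 0 else 1) = n → (∃ s, (s, b) ∈ H) →
      (MWs A false H ps c b ↔ MW A {x | ∃ s, (s, x) ∈ H} ps c b) from key _ H ps c b rfl h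
  intro n
  induction n using Nat.strong_induction_on with
  | _ n ih =>
  intro H ps c b hn h
  rw [mws_iff A false H, mw_iff A]
  refine or_congr Iff.rfl (or_congr ?_ ?_)
  · cases ps with
    | true => simp
    | false =>
      have hle : ((insert (!c, b) H)ᶜ).ncard ≤ (Hᶜ).ncard :=
        Set.ncard_le_ncard (Set.compl_subset_compl.mpr (Set.subset_insert _ _)) (Set.toFinite _)
      have h1 : 2 * ((insert (!c, b) H)ᶜ).ncard < n := by
        simp only [Bool.false_eq_true, if_false] at hn
        omega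
      have h2 := ih (2 * ((insert (!c, b) H)ᶜ).ncard) h1 (insert (!c, b) H) true (!c) b (by simp)
        ⟨_, Set.mem_insert _ _⟩
      rw [h2, boards_insert, Set.insert_eq_of_mem (show b ∈ {x | ∃ s, (s, x) ∈ H} from h)]
  · refine exists_congr fun b' => ?_
    refine and_congr_right fun hm => ?_
    have hok : okk false c b' H ↔ b' ∉ {x | ∃ s, (s, x) ∈ H} := by
      simp only [okk, Bool.false_eq_true, if_false, Set.mem_ofPred_eq, not_exists]
    rw [hok]
    refine and_congr_right fun hb => not_congr ?_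
    have hb' : (!c, b') ∉ H := fun h1 => hb ⟨_, h1⟩
    have hlt : ((insert (!c, b') H)ᶜ).ncard < (Hᶜ).ncard := by
      refine Set.ncard_lt_ncard ?_ (Set.toFinite _)
      refine ⟨fun x hx hxH => hx (Or.inr hxH), fun hcon => ?_⟩
      exact hcon (show (!c, b') ∈ Hᶜ from hb') (Or.inl rfl)
    have h3 := ih (2 * ((insert (!c, b') H)ᶜ).ncard + (if false = true then 0 else 1)) (by
      rw [← hn]
      simp only [Bool.false_eq_true, if_false]
      omega) (insert (!c, b') H) false (!c) b' rfl ⟨_, Set.mem_insert _ _⟩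
    rw [h3, boards_insert]

end Pool.Agent.Helper41.GT
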