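import Pool.Agent.Helper79.GT.St6
import Pool.Agent.Helper79.GS.Lib

/-!
# Module EVB of project GT (MP_c2d095_lc): placements in the window are E2
-/

set_option autoImplicit false

namespace Pool.Agent.Helper41.GT

open Pool.Agent.Helper79.GT Pool.Agent.Helper79.GS Pool.Agent.Helper19.SK Pool.Agent.Helper73.DC Finset

private theorem e_ite' {α : Type} [Fintype α] {p : List α → (ℕ → ℕ) → Prop}
    [∀ w v, Decidable (p w v)] {F G : VF α} (hp : E2P p) (hF : E2 F) (hG : E2 G) :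
    E2 (fun w v => if p w v then F w v else G w v) := by
  have h := e_ite hp hF hG
  convert h

theorem hEVB (hEB1 : StEB1) (hEB2 : StEB2) (hEVW : StEVW) (hEVL : StEVL) : StEVB := by
  intro Sm hSm
  obtain ⟨eN, -, -, -, -, -, -, -, -, ePT, -⟩ := hEVW
  -- stones
  have hnum : ∀ n C U : VF (Fin 5), E2 n → E2 C → E2 U →
      E2 (fun w v => numN (n w v) (C w v) (U w v)) := by
    intro n C U hn hC hU
    exact e_sum (T := fun w i v => if dg 3 (U w v) i = colN (C w v) then 1 else 0)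
      (H := fun w v => n w v * n w v)
      (e_ite' (p := fun w v => dg 3 (U w (fun i => v (i + 1))) (v 0) = colN (C w (fun i => v (i + 1))))
        (e_eq (e_dg (e_con 3) (e_sh hU) (e_get 0)) (hEB1.2.1 _ (e_sh hC))) (e_con 1) (e_con 0))
      (e_mul hn hn)
  -- declarations
  have hdc : ∀ (i : Bool) (N C B B' : VF (Fin 5)), E2 N → E2 C → E2 B → E2 B' →
      E2P (fun w v => dcN Sm (N w v) w i (C w v) (B w v) (B' w v)) := by
    intro i N C B B' hN hC hB hB'
    have h1 : E2 (α := Fin 5) (fun w _ => w.length + 1 + 2 * (nV w * nV w)) :=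
      e_add (e_add e_len (e_con 1)) (e_mul (e_con 2) (e_mul eN eN))
    have h2 := hEVL.2 (fun w v => C w (fun j => v (j + 1))) (fun w v => B w (fun j => v (j + 1)))
      (fun w v => B' w (fun j => v (j + 1))) (fun _ v => v 0) (e_sh hC) (e_sh hB) (e_sh hB') (e_get 0)
    exact hSm i N (fun w _ => w.length + 1 + 2 * (nV w * nV w))
      (fun w j v => vlt w (C w v) (B w v) (B' w v) j) hN h1 h2
  have hmv : ∀ N C U X : VF (Fin 5), E2 N → E2 C → E2 U → E2 X →
      E2P (fun w v => mvN (N w v) (nV w) (C w v) (U w v) (X w v)) := by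
    intro N C U X hN hC hU hX
    exact (hEB2.2.2.1 N (fun w _ => nV w) C U X hN eN hC hU hX).1
  have hun : ∀ N C U Y : VF (Fin 5), E2 N → E2 C → E2 U → E2 Y →
      E2P (fun w v => unN Sm (N w v) w (C w v) (U w v) (Y w v)) := by
    intro N C U Y hN hC hU hY
    exact e_and (hmv N C U Y hN hC hU hY) (e_or
      (hmv N (fun w v => 1 - C w v) Y U hN (e_sub (e_con 1) hC) hY hU)
      (e_and (e_not (hdc false N C U Y hN hC hU hY)) (e_not (hdc true N C U Y hN hC hU hY))))
  refine ⟨hnum, hdc, fun N C U Y hN hC hU hY => ⟨hun N C U Y hN hC hU hY, ?_⟩⟩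
  obtain ⟨hPP, hTT, -⟩ := ePT N hN
  have hUm : E2 (fun w v => U w v % PP (N w v) w) := e_mod hU hPP
  have hYm : E2 (fun w v => Y w v % PP (N w v) w) := e_mod hY hPP
  have hUd : E2 (fun w v => U w v / PP (N w v) w) := e_div hU hPP
  have hYd : E2 (fun w v => Y w v / PP (N w v) w) := e_div hY hPP
  have ho : E2 (fun w v => o1 (C w v)) := (hEVL.1 C hC).2
  have n0 : ∀ U : VF (Fin 5), E2 U → E2 (fun w v => numN (nV w) 0 (U w v)) := fun U hU =>
    hnum (fun w _ => nV w) (fun _ _ => 0) U eN (e_con 0) hU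
  have n1 : ∀ U : VF (Fin 5), E2 U → E2 (fun w v => numN (nV w) 1 (U w v)) := fun U hU =>
    hnum (fun w _ => nV w) (fun _ _ => 1) U eN (e_con 1) hU
  have hex : E2P (fun w v => ∃ y < PP (N w v) w, mvN (N w v) (nV w) (C w v) (U w v % PP (N w v) w) y ∧
      ¬ mvN (N w v) (nV w) (1 - C w v) y (U w v % PP (N w v) w) ∧
        dcN Sm (N w v) w true (C w v) (U w v % PP (N w v) w) y) :=
    e_ex (p := fun w y v => mvN (N w v) (nV w) (C w v) (U w v % PP (N w v) w) y ∧
      ¬ mvN (N w v) (nV w) (1 - C w v) y (U w v % PP (N w v) w) ∧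
        dcN Sm (N w v) w true (C w v) (U w v % PP (N w v) w) y) (H := fun w v => PP (N w v) w)
      (e_and (hmv _ _ _ _ (e_sh hN) (e_sh hC) (e_sh hUm) (e_get 0))
        (e_and (e_not (hmv _ _ _ _ (e_sh hN) (e_sh (e_sub (e_con 1) hC)) (e_get 0) (e_sh hUm)))
          (hdc true _ _ _ _ (e_sh hN) (e_sh hC) (e_sh hUm) (e_get 0)))) hPP
  exact e_or
    (e_and (e_lt hU hTT) (e_and (e_lt hY hTT) (e_and (hun _ _ _ _ hN hC hUm hYm)
      (e_eq (e_add (e_add (e_add hYd (n0 _ hYm)) (n1 _ hUm)) ho)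
        (e_add (e_add (e_add hUd (n0 _ hUm)) (n1 _ hYm)) (e_sub (e_con 1) ho))))))
    (e_and (e_lt hU hTT) (e_and (e_eq hY (e_add hTT ho)) hex))

end Pool.Agent.Helper41.GT
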